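import Mathlib

set_option autoImplicit false
set_option linter.unreachableTactic false
set_option linter.unusedTactic false

namespace Pool.Agent.Results.MP_9020c0_gt.BelowHexagon

open MeasureTheory MeasureTheory.Measure

/-- The Euclidean plane. -/
abbrev E2 : Type := EuclideanSpace ℝ (Fin 2)

/-- A closed topological disk (in particular closed and bounded). -/
def IsDisk (A : Set E2) : Prop := Nonempty (A ≃ₜ Metric.closedBall (0 : E2) 1)

/-- A tiling of the plane: a countable family of closed topological disks which cover the plane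
and have pairwise disjoint interiors. -/
structure IsTiling {ι : Type} (A : ι → Set E2) : Prop where
  countable : Countable ι
  disk : ∀ i, IsDisk (A i)
  cover : ⋃ i, A i = Set.univ
  disjoint : ∀ i j, i ≠ j → Disjoint (interior (A i)) (interior (A j))

/-- The isoperimetric ratio of a tile: squared boundary length (one-dimensional Hausdorff measure
of the boundary) divided by area (Lebesgue measure). -/
noncomputable def isoRatio (A : Set E2) : ENNReal := (μH[1] (frontier A)) ^ 2 / volume A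

/-! ### Regions given by positively homogeneous functions -/

/-- A continuous positively homogeneous function which is positive away from the origin. -/
structure GaugeLike (g : E2 → ℝ) : Prop where
  cont : Continuous g
  hom : ∀ (t : ℝ) (x : E2), 0 ≤ t → g (t • x) = t * g x
  pos : ∀ x : E2, x ≠ 0 → 0 < g x

lemma GaugeLike.zero {g : E2 → ℝ} (hg : GaugeLike g) : g 0 = 0 := by
  have := hg.hom 0 0 le_rfl
  simpa using this

lemma GaugeLike.lower {g : E2 → ℝ} (hg : GaugeLike g) : ∃ m > 0, ∀ x, m * ‖x‖ ≤ g x := by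
  obtain ⟨y, hy, hmin⟩ := (isCompact_sphere (0 : E2) 1).exists_isMinOn
    (NormedSpace.sphere_nonempty.2 zero_le_one) hg.cont.continuousOn
  have hy1 : ‖y‖ = 1 := by simpa using hy
  have hy0 : y ≠ 0 := by
    intro h; rw [h] at hy1; simp at hy1
  refine ⟨g y, hg.pos y hy0, fun x => ?_⟩
  by_cases hx : x = 0
  · rw [hx, hg.zero]; simp
  · have hn : 0 < ‖x‖ := norm_pos_iff.2 hx
    have h1 : ‖x‖⁻¹ • x ∈ Metric.sphere (0 : E2) 1 := by
      simp [norm_smul, hn.ne']
    have h2 : g y ≤ g (‖x‖⁻¹ • x) := hmin h1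
    rw [hg.hom _ _ (by positivity)] at h2
    have h3 : g y * ‖x‖ ≤ ‖x‖⁻¹ * g x * ‖x‖ := mul_le_mul_of_nonneg_right h2 hn.le
    have h4 : ‖x‖⁻¹ * g x * ‖x‖ = g x := by field_simp
    linarith

/-- The radial homeomorphism carrying the region of `g` to the unit disk. -/
noncomputable def radial (g : E2 → ℝ) (hg : GaugeLike g) : E2 ≃ₜ E2 where
  toFun x := (g x / ‖x‖) • x
  invFun y := (‖y‖ / g y) • y
  left_inv := by
    intro x
    by_cases hx : x = 0
    · simp [hx]
    · have h1 := hg.pos x hx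
      have h2 : 0 < ‖x‖ := norm_pos_iff.2 hx
      have h3 : 0 < g x / ‖x‖ := div_pos h1 h2
      simp only
      rw [hg.hom _ _ h3.le, norm_smul, Real.norm_of_nonneg h3.le, smul_smul]
      have : g x / ‖x‖ * ‖x‖ / (g x / ‖x‖ * g x) * (g x / ‖x‖) = 1 := by field_simp
      rw [this, one_smul]
  right_inv := by
    intro x
    by_cases hx : x = 0
    · simp [hx]
    · have h1 := hg.pos x hx
      have h2 : 0 < ‖x‖ := norm_pos_iff.2 hx
      have h3 : 0 < ‖x‖ / g x := div_pos h2 h1
      simp only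
      rw [hg.hom _ _ h3.le, norm_smul, Real.norm_of_nonneg h3.le, smul_smul]
      have : ‖x‖ / g x * g x / (‖x‖ / g x * ‖x‖) * (‖x‖ / g x) = 1 := by field_simp
      rw [this, one_smul]
  continuous_toFun := by
    rw [continuous_iff_continuousAt]
    intro x
    by_cases hx : x = 0
    · subst hx
      have h0 : (g 0 / ‖(0 : E2)‖) • (0 : E2) = 0 := smul_zero _
      rw [ContinuousAt, h0, tendsto_zero_iff_norm_tendsto_zero]
      have : (fun x : E2 => ‖(g x / ‖x‖) • x‖) = fun x => |g x| := by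
        funext x
        by_cases hx : x = 0
        · simp [hx, hg.zero]
        · have h2 : 0 < ‖x‖ := norm_pos_iff.2 hx
          rw [norm_smul, norm_div, norm_norm, Real.norm_eq_abs]
          field_simp
      rw [this]
      have hc : Continuous fun x => |g x| := hg.cont.abs
      have := hc.tendsto 0
      rwa [hg.zero, abs_zero] at this
    · have h2 : ‖x‖ ≠ 0 := (norm_pos_iff.2 hx).ne'
      exact ((hg.cont.continuousAt.div continuous_norm.continuousAt h2).smul continuousAt_id)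
  continuous_invFun := by
    rw [continuous_iff_continuousAt]
    intro x
    by_cases hx : x = 0
    · subst hx
      have h0 : (‖(0 : E2)‖ / g 0) • (0 : E2) = 0 := smul_zero _
      rw [ContinuousAt, h0, tendsto_zero_iff_norm_tendsto_zero]
      obtain ⟨m, hm, hl⟩ := hg.lower
      apply squeeze_zero (g := fun y : E2 => m⁻¹ * ‖y‖) (fun y => norm_nonneg _)
      · intro y
        by_cases hy : y = 0
        · simp [hy]
        · have h1 := hg.pos y hy
          have h2 : 0 < ‖y‖ := norm_pos_iff.2 hy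
          rw [norm_smul, Real.norm_of_nonneg (div_pos h2 h1).le]
          apply mul_le_mul_of_nonneg_right _ h2.le
          rw [div_le_iff₀ h1, inv_mul_eq_div, le_div_iff₀ hm]
          linarith [hl y]
      · have : Continuous fun y : E2 => m⁻¹ * ‖y‖ := by fun_prop
        have := this.tendsto 0
        simpa using this
    · have h2 : g x ≠ 0 := (hg.pos x hx).ne'
      exact ((continuous_norm.continuousAt.div hg.cont.continuousAt h2).smul continuousAt_id)

lemma norm_radial (g : E2 → ℝ) (hg : GaugeLike g) (x : E2) : ‖radial g hg x‖ = g x := by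
  change ‖(g x / ‖x‖) • x‖ = g x
  by_cases hx : x = 0
  · simp [hx, hg.zero]
  · have h1 := hg.pos x hx
    have h2 : 0 < ‖x‖ := norm_pos_iff.2 hx
    rw [norm_smul, Real.norm_of_nonneg (div_pos h1 h2).le]
    field_simp

/-- The region `g ≤ 1` moved to the centre `c`. -/
def region (g : E2 → ℝ) (c : E2) : Set E2 := {x | g (x - c) ≤ 1}

/-- The homeomorphism of the plane carrying a region to the unit disk. -/
noncomputable def regionHomeo (g : E2 → ℝ) (hg : GaugeLike g) (c : E2) : E2 ≃ₜ E2 :=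
  (Homeomorph.subRight c).trans (radial g hg)

lemma region_eq (g : E2 → ℝ) (hg : GaugeLike g) (c : E2) :
    region g c = regionHomeo g hg c ⁻¹' Metric.closedBall 0 1 := by
  ext x
  simp only [region, Set.mem_preimage, mem_closedBall_zero_iff]
  change g (x - c) ≤ 1 ↔ ‖radial g hg (x - c)‖ ≤ 1
  rw [norm_radial]

lemma region_isDisk (g : E2 → ℝ) (hg : GaugeLike g) (c : E2) : IsDisk (region g c) := by
  rw [region_eq g hg c]
  exact ⟨(regionHomeo g hg c).subtype (fun x => Iff.rfl)⟩

lemma interior_region (g : E2 → ℝ) (hg : GaugeLike g) (c : E2) :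
    interior (region g c) = {x | g (x - c) < 1} := by
  rw [region_eq g hg c, ← Homeomorph.preimage_interior, interior_closedBall _ one_ne_zero]
  ext x
  simp only [Set.mem_preimage, mem_ball_zero_iff]
  change ‖radial g hg (x - c)‖ < 1 ↔ g (x - c) < 1
  rw [norm_radial]

lemma frontier_region (g : E2 → ℝ) (hg : GaugeLike g) (c : E2) :
    frontier (region g c) = {x | g (x - c) = 1} := by
  rw [region_eq g hg c, ← Homeomorph.preimage_frontier, frontier_closedBall _ one_ne_zero]
  ext x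
  simp only [Set.mem_preimage, mem_sphere_zero_iff_norm]
  change ‖radial g hg (x - c)‖ = 1 ↔ g (x - c) = 1
  rw [norm_radial]

/-! ### Area of trapezoids -/

/-- The area of a trapezoid with two vertical sides. -/
lemma area_trapezoid (p q a b c d : ℝ) (hpq : p ≤ q)
    (hab : ∀ x ∈ Set.Ioo p q, a * x + b ≤ c * x + d) :
    volume {z : E2 | z 0 ∈ Set.Ioo p q ∧ a * z 0 + b < z 1 ∧ z 1 < c * z 0 + d} =
      ENNReal.ofReal ((q - p) * ((c - a) * (p + q) / 2 + (d - b))) := by
  have e : {z : E2 | z 0 ∈ Set.Ioo p q ∧ a * z 0 + b < z 1 ∧ z 1 < c * z 0 + d} =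
      (WithLp.ofLp) ⁻¹' ((MeasurableEquiv.finTwoArrow (α := ℝ)) ⁻¹'
        (regionBetween (fun x => a * x + b) (fun x => c * x + d) (Set.Ioo p q))) := by
    ext z
    simp [regionBetween]
  have hm : MeasurableSet (regionBetween (fun x => a * x + b) (fun x => c * x + d)
      (Set.Ioo p q)) := by
    apply measurableSet_regionBetween <;> first | fun_prop | exact measurableSet_Ioo
  rw [e, (PiLp.volume_preserving_ofLp (Fin 2)).measure_preimage
    (((MeasurableEquiv.finTwoArrow (α := ℝ)).measurable hm).nullMeasurableSet),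
    (volume_preserving_finTwoArrow ℝ).measure_preimage hm.nullMeasurableSet]
  rw [volume_eq_prod, volume_regionBetween_eq_integral]
  · congr 1
    rw [← integral_Ioc_eq_integral_Ioo, ← intervalIntegral.integral_of_le hpq]
    simp only [Pi.sub_apply]
    have : (fun x => c * x + d - (a * x + b)) = fun x => (c - a) * x + (d - b) := by
      funext x; ring
    rw [this, intervalIntegral.integral_add, intervalIntegral.integral_const_mul, integral_id]
    · simp; ring
    · apply Continuous.intervalIntegrable; fun_prop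
    · apply Continuous.intervalIntegrable; fun_prop
  · apply Continuous.integrableOn_Icc (a := p) (b := q) (by fun_prop) |>.mono_set
      Set.Ioo_subset_Icc_self
  · apply Continuous.integrableOn_Icc (a := p) (b := q) (by fun_prop) |>.mono_set
      Set.Ioo_subset_Icc_self
  · exact measurableSet_Ioo
  · exact hab

/-- Adding one trapezoid to a lower bound for the area of a set. -/
lemma area_step (K : Set E2) (p q a b c d V : ℝ) (hpq : p ≤ q)
    (hab : ∀ x ∈ Set.Ioo p q, a * x + b ≤ c * x + d)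
    (hsub : ∀ z : E2, p < z 0 → z 0 < q → a * z 0 + b < z 1 → z 1 < c * z 0 + d → z ∈ K)
    (h : ENNReal.ofReal V ≤ volume (K ∩ {z | z 0 ≤ p})) :
    ENNReal.ofReal (V + (q - p) * ((c - a) * (p + q) / 2 + (d - b))) ≤
      volume (K ∩ {z | z 0 ≤ q}) := by
  set t := {z : E2 | z 0 ∈ Set.Ioo p q ∧ a * z 0 + b < z 1 ∧ z 1 < c * z 0 + d} with ht
  have hm : MeasurableSet {z : E2 | z 0 ≤ p} := by
    apply measurableSet_le <;> fun_prop
  have h1 : volume ((K ∩ {z | z 0 ≤ p}) ∪ t) = volume (K ∩ {z | z 0 ≤ p}) + volume t := by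
    have ht' : MeasurableSet t := by
      have e1 : MeasurableSet {z : E2 | z 0 ∈ Set.Ioo p q} :=
        (show Measurable fun z : E2 => z 0 by fun_prop) measurableSet_Ioo
      have e2 : MeasurableSet {z : E2 | a * z 0 + b < z 1} := by
        apply measurableSet_lt <;> fun_prop
      have e3 : MeasurableSet {z : E2 | z 1 < c * z 0 + d} := by
        apply measurableSet_lt <;> fun_prop
      exact e1.inter (e2.inter e3)
    apply measure_union _ ht'
    rw [Set.disjoint_left]
    rintro z ⟨_, hz⟩ ⟨⟨hz1, _⟩, _⟩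
    have : z 0 ≤ p := hz
    linarith
  have h2 : (K ∩ {z | z 0 ≤ p}) ∪ t ⊆ K ∩ {z | z 0 ≤ q} := by
    rintro z (⟨hz, hz'⟩ | ⟨⟨hz1, hz2⟩, hz3, hz4⟩)
    · exact ⟨hz, le_trans hz' hpq⟩
    · exact ⟨hsub z hz1 hz2 hz3 hz4, hz2.le⟩
  calc ENNReal.ofReal (V + (q - p) * ((c - a) * (p + q) / 2 + (d - b)))
      ≤ ENNReal.ofReal V + ENNReal.ofReal ((q - p) * ((c - a) * (p + q) / 2 + (d - b))) :=
        ENNReal.ofReal_add_le
    _ ≤ volume (K ∩ {z | z 0 ≤ p}) + volume t := by
        rw [ht, area_trapezoid p q a b c d hpq hab]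
        gcongr
    _ = volume ((K ∩ {z | z 0 ≤ p}) ∪ t) := h1.symm
    _ ≤ volume (K ∩ {z | z 0 ≤ q}) := measure_mono h2

/-! ### The two tiles -/

/-- A linear form. -/
noncomputable def lf (a b c : ℝ) (x : E2) : ℝ := (a * x 0 + b * x 1) / c

lemma lf_smul (a b c t : ℝ) (x : E2) : lf a b c (t • x) = t * lf a b c x := by
  simp [lf]; ring

/-- The small tile: an octagon. -/
noncomputable def gS (x : E2) : ℝ :=
  max (max (max (lf 1 2 16 x) (lf (-1) 2 16 x)) (max (lf 4 3 34 x) (lf (-4) 3 34 x)))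
    (max (max (lf 1 0 7 x) (lf (-1) 0 7 x)) (max (lf 2 (-7) 42 x) (lf (-2) (-7) 42 x)))

/-- The large tile: a hexagon with three dents. -/
noncomputable def gB (x : E2) : ℝ :=
  max (max (max (lf 1 0 84 x) (lf (-1) 0 84 x))
      (max (max (lf 4 7 672 x) (lf (-4) 7 672 x)) (max (lf 4 (-7) 672 x) (lf (-4) (-7) 672 x))))
    (max (min (lf (-2) 7 630 x) (lf 2 7 630 x))
      (max (min (min (lf 1 (-2) 164 x) (lf 4 (-3) 446 x)) (lf 1 0 77 x))
        (min (min (lf (-1) (-2) 164 x) (lf (-4) (-3) 446 x)) (lf (-1) 0 77 x))))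

lemma gS_le (x : E2) : gS x ≤ 1 ↔ ((x 0 + 2 * x 1 ≤ 16 ∧ -x 0 + 2 * x 1 ≤ 16) ∧
    (4 * x 0 + 3 * x 1 ≤ 34 ∧ -4 * x 0 + 3 * x 1 ≤ 34)) ∧ ((x 0 ≤ 7 ∧ -x 0 ≤ 7) ∧
      (2 * x 0 - 7 * x 1 ≤ 42 ∧ -2 * x 0 - 7 * x 1 ≤ 42)) := by
  simp only [gS, lf, max_le_iff]
  norm_num [div_le_one, sub_eq_add_neg]

lemma gS_lt (x : E2) : gS x < 1 ↔ ((x 0 + 2 * x 1 < 16 ∧ -x 0 + 2 * x 1 < 16) ∧
    (4 * x 0 + 3 * x 1 < 34 ∧ -4 * x 0 + 3 * x 1 < 34)) ∧ ((x 0 < 7 ∧ -x 0 < 7) ∧
      (2 * x 0 - 7 * x 1 < 42 ∧ -2 * x 0 - 7 * x 1 < 42)) := by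
  simp only [gS, lf, max_lt_iff]
  norm_num [div_lt_one, sub_eq_add_neg]

lemma gB_le (x : E2) : gB x ≤ 1 ↔ ((x 0 ≤ 84 ∧ -x 0 ≤ 84) ∧
    ((4 * x 0 + 7 * x 1 ≤ 672 ∧ -4 * x 0 + 7 * x 1 ≤ 672) ∧
      (4 * x 0 - 7 * x 1 ≤ 672 ∧ -4 * x 0 - 7 * x 1 ≤ 672))) ∧
    ((-2 * x 0 + 7 * x 1 ≤ 630 ∨ 2 * x 0 + 7 * x 1 ≤ 630) ∧
      (((x 0 - 2 * x 1 ≤ 164 ∨ 4 * x 0 - 3 * x 1 ≤ 446) ∨ x 0 ≤ 77) ∧
        ((-x 0 - 2 * x 1 ≤ 164 ∨ -4 * x 0 - 3 * x 1 ≤ 446) ∨ -x 0 ≤ 77))) := by
  simp only [gB, lf, max_le_iff, min_le_iff]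
  norm_num [div_le_one, sub_eq_add_neg]

lemma gB_lt (x : E2) : gB x < 1 ↔ ((x 0 < 84 ∧ -x 0 < 84) ∧
    ((4 * x 0 + 7 * x 1 < 672 ∧ -4 * x 0 + 7 * x 1 < 672) ∧
      (4 * x 0 - 7 * x 1 < 672 ∧ -4 * x 0 - 7 * x 1 < 672))) ∧
    ((-2 * x 0 + 7 * x 1 < 630 ∨ 2 * x 0 + 7 * x 1 < 630) ∧
      (((x 0 - 2 * x 1 < 164 ∨ 4 * x 0 - 3 * x 1 < 446) ∨ x 0 < 77) ∧
        ((-x 0 - 2 * x 1 < 164 ∨ -4 * x 0 - 3 * x 1 < 446) ∨ -x 0 < 77))) := by
  simp only [gB, lf, max_lt_iff, min_lt_iff]
  norm_num [div_lt_one, sub_eq_add_neg]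

lemma eq_zero_of (x : E2) (h0 : x 0 = 0) (h1 : x 1 = 0) : x = 0 := by
  ext i
  fin_cases i
  · exact h0
  · exact h1

lemma gaugeS : GaugeLike gS where
  cont := by unfold gS lf; fun_prop
  hom := by
    intro t x ht
    simp only [gS, lf_smul, mul_max_of_nonneg _ _ ht]
  pos := by
    intro x hx
    by_contra hc
    push Not at hc
    simp only [gS, lf, max_le_iff] at hc
    norm_num [div_nonpos_iff] at hc
    apply hx
    obtain ⟨⟨⟨h1, h2⟩, h3, h4⟩, ⟨h5, h6⟩, h7, h8⟩ := hc
    apply eq_zero_of <;> linarith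

lemma gaugeB : GaugeLike gB where
  cont := by unfold gB lf; fun_prop
  hom := by
    intro t x ht
    simp only [gB, lf_smul, mul_max_of_nonneg _ _ ht, mul_min_of_nonneg _ _ ht]
  pos := by
    intro x hx
    by_contra hc
    push Not at hc
    simp only [gB, lf, max_le_iff] at hc
    obtain ⟨⟨⟨h1, h2⟩, ⟨h3, h4⟩, h5, h6⟩, -⟩ := hc
    apply hx
    apply eq_zero_of <;> linarith

/-! ### Areas -/

lemma areaS : ENNReal.ofReal 150 ≤ volume {x : E2 | gS x ≤ 1} := by
  have h0 : ENNReal.ofReal 0 ≤ volume ({x : E2 | gS x ≤ 1} ∩ {z | z 0 ≤ -7}) := by simp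
  have h1 := area_step {x : E2 | gS x ≤ 1} (-7) (-4) (-2/7) (-6) (4/3) (34/3) _ (by norm_num)
    (by rintro x ⟨hx1, hx2⟩; linarith)
    (by
      intro z z1 z2 z3 z4
      change gS z ≤ 1
      rw [gS_le]
      refine ⟨⟨⟨by linarith, by linarith⟩, by linarith, by linarith⟩, ⟨by linarith, by linarith⟩,
        by linarith, by linarith⟩
      ) h0
  have h2 := area_step {x : E2 | gS x ≤ 1} (-4) (0) (-2/7) (-6) (1/2) (8) _ (by norm_num)
    (by rintro x ⟨hx1, hx2⟩; linarith)
    (by
      intro z z1 z2 z3 z4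
      change gS z ≤ 1
      rw [gS_le]
      refine ⟨⟨⟨by linarith, by linarith⟩, by linarith, by linarith⟩, ⟨by linarith, by linarith⟩,
        by linarith, by linarith⟩
      ) h1
  have h3 := area_step {x : E2 | gS x ≤ 1} (0) (4) (2/7) (-6) (-1/2) (8) _ (by norm_num)
    (by rintro x ⟨hx1, hx2⟩; linarith)
    (by
      intro z z1 z2 z3 z4
      change gS z ≤ 1
      rw [gS_le]
      refine ⟨⟨⟨by linarith, by linarith⟩, by linarith, by linarith⟩, ⟨by linarith, by linarith⟩,
        by linarith, by linarith⟩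
      ) h2
  have h4 := area_step {x : E2 | gS x ≤ 1} (4) (7) (2/7) (-6) (-4/3) (34/3) _ (by norm_num)
    (by rintro x ⟨hx1, hx2⟩; linarith)
    (by
      intro z z1 z2 z3 z4
      change gS z ≤ 1
      rw [gS_le]
      refine ⟨⟨⟨by linarith, by linarith⟩, by linarith, by linarith⟩, ⟨by linarith, by linarith⟩,
        by linarith, by linarith⟩
      ) h3
  refine le_trans (le_trans (le_of_eq ?_) h4) (measure_mono Set.inter_subset_left)
  congr 1; norm_num

lemma areaB : ENNReal.ofReal 24042 ≤ volume {x : E2 | gB x ≤ 1} := by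
  have h0 : ENNReal.ofReal 0 ≤ volume ({x : E2 | gB x ≤ 1} ∩ {z | z 0 ≤ -84}) := by simp
  have h1 := area_step {x : E2 | gB x ≤ 1} (-84) (-80) (-1/2) (-82) (4/7) (96) _ (by norm_num)
    (by rintro x ⟨hx1, hx2⟩; linarith)
    (by
      intro z z1 z2 z3 z4
      change gB z ≤ 1
      rw [gB_le]
      refine ⟨⟨⟨by linarith, by linarith⟩, ⟨by linarith, by linarith⟩, by linarith, by linarith⟩,
        ?_, ?_, ?_⟩
      · first | (left; linarith) | (right; linarith)
      · first | (left; left; linarith) | (left; right; linarith) | (right; linarith)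
      · first | (left; left; linarith) | (left; right; linarith) | (right; linarith)
      ) h0
  have h2 := area_step {x : E2 | gB x ≤ 1} (-80) (-77) (-4/3) (-446/3) (4/7) (96) _ (by norm_num)
    (by rintro x ⟨hx1, hx2⟩; linarith)
    (by
      intro z z1 z2 z3 z4
      change gB z ≤ 1
      rw [gB_le]
      refine ⟨⟨⟨by linarith, by linarith⟩, ⟨by linarith, by linarith⟩, by linarith, by linarith⟩,
        ?_, ?_, ?_⟩
      · first | (left; linarith) | (right; linarith)
      · first | (left; left; linarith) | (left; right; linarith) | (right; linarith)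
      · first | (left; left; linarith) | (left; right; linarith) | (right; linarith)
      ) h1
  have h3 := area_step {x : E2 | gB x ≤ 1} (-77) (-7) (-4/7) (-96) (4/7) (96) _ (by norm_num)
    (by rintro x ⟨hx1, hx2⟩; linarith)
    (by
      intro z z1 z2 z3 z4
      change gB z ≤ 1
      rw [gB_le]
      refine ⟨⟨⟨by linarith, by linarith⟩, ⟨by linarith, by linarith⟩, by linarith, by linarith⟩,
        ?_, ?_, ?_⟩
      · first | (left; linarith) | (right; linarith)
      · first | (left; left; linarith) | (left; right; linarith) | (right; linarith)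
      · first | (left; left; linarith) | (left; right; linarith) | (right; linarith)
      ) h2
  have h4 := area_step {x : E2 | gB x ≤ 1} (-7) (0) (-4/7) (-96) (-2/7) (90) _ (by norm_num)
    (by rintro x ⟨hx1, hx2⟩; linarith)
    (by
      intro z z1 z2 z3 z4
      change gB z ≤ 1
      rw [gB_le]
      refine ⟨⟨⟨by linarith, by linarith⟩, ⟨by linarith, by linarith⟩, by linarith, by linarith⟩,
        ?_, ?_, ?_⟩
      · first | (left; linarith) | (right; linarith)
      · first | (left; left; linarith) | (left; right; linarith) | (right; linarith)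
      · first | (left; left; linarith) | (left; right; linarith) | (right; linarith)
      ) h3
  have h5 := area_step {x : E2 | gB x ≤ 1} (0) (7) (4/7) (-96) (2/7) (90) _ (by norm_num)
    (by rintro x ⟨hx1, hx2⟩; linarith)
    (by
      intro z z1 z2 z3 z4
      change gB z ≤ 1
      rw [gB_le]
      refine ⟨⟨⟨by linarith, by linarith⟩, ⟨by linarith, by linarith⟩, by linarith, by linarith⟩,
        ?_, ?_, ?_⟩
      · first | (left; linarith) | (right; linarith)
      · first | (left; left; linarith) | (left; right; linarith) | (right; linarith)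
      · first | (left; left; linarith) | (left; right; linarith) | (right; linarith)
      ) h4
  have h6 := area_step {x : E2 | gB x ≤ 1} (7) (77) (4/7) (-96) (-4/7) (96) _ (by norm_num)
    (by rintro x ⟨hx1, hx2⟩; linarith)
    (by
      intro z z1 z2 z3 z4
      change gB z ≤ 1
      rw [gB_le]
      refine ⟨⟨⟨by linarith, by linarith⟩, ⟨by linarith, by linarith⟩, by linarith, by linarith⟩,
        ?_, ?_, ?_⟩
      · first | (left; linarith) | (right; linarith)
      · first | (left; left; linarith) | (left; right; linarith) | (right; linarith)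
      · first | (left; left; linarith) | (left; right; linarith) | (right; linarith)
      ) h5
  have h7 := area_step {x : E2 | gB x ≤ 1} (77) (80) (4/3) (-446/3) (-4/7) (96) _ (by norm_num)
    (by rintro x ⟨hx1, hx2⟩; linarith)
    (by
      intro z z1 z2 z3 z4
      change gB z ≤ 1
      rw [gB_le]
      refine ⟨⟨⟨by linarith, by linarith⟩, ⟨by linarith, by linarith⟩, by linarith, by linarith⟩,
        ?_, ?_, ?_⟩
      · first | (left; linarith) | (right; linarith)
      · first | (left; left; linarith) | (left; right; linarith) | (right; linarith)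
      · first | (left; left; linarith) | (left; right; linarith) | (right; linarith)
      ) h6
  have h8 := area_step {x : E2 | gB x ≤ 1} (80) (84) (1/2) (-82) (-4/7) (96) _ (by norm_num)
    (by rintro x ⟨hx1, hx2⟩; linarith)
    (by
      intro z z1 z2 z3 z4
      change gB z ≤ 1
      rw [gB_le]
      refine ⟨⟨⟨by linarith, by linarith⟩, ⟨by linarith, by linarith⟩, by linarith, by linarith⟩,
        ?_, ?_, ?_⟩
      · first | (left; linarith) | (right; linarith)
      · first | (left; left; linarith) | (left; right; linarith) | (right; linarith)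
      · first | (left; left; linarith) | (left; right; linarith) | (right; linarith)
      ) h7
  refine le_trans (le_trans (le_of_eq ?_) h8) (measure_mono Set.inter_subset_left)
  congr 1; norm_num

/-! ### Perimeters -/

/-- The segment with given endpoints (as pairs of pairs of coordinates). -/
noncomputable def seg (s : (ℝ × ℝ) × (ℝ × ℝ)) : Set E2 :=
  segment ℝ (!₂[s.1.1, s.1.2] : E2) !₂[s.2.1, s.2.2]

/-- Its length. -/
noncomputable def segLen (s : (ℝ × ℝ) × (ℝ × ℝ)) : ℝ :=
  Real.sqrt ((s.1.1 - s.2.1) ^ 2 + (s.1.2 - s.2.2) ^ 2)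

lemma measure_seg (s : (ℝ × ℝ) × (ℝ × ℝ)) : μH[1] (seg s) = ENNReal.ofReal (segLen s) := by
  rw [seg, hausdorffMeasure_segment, edist_dist, EuclideanSpace.dist_eq, Fin.sum_univ_two, segLen]
  simp [Real.dist_eq, sq_abs]

lemma mem_seg {p0 p1 q0 q1 : ℝ} {x : E2} (t : ℝ) (ht0 : 0 ≤ t) (ht1 : t ≤ 1)
    (h0 : x 0 = (1 - t) * p0 + t * q0) (h1 : x 1 = (1 - t) * p1 + t * q1) :
    x ∈ seg ((p0, p1), (q0, q1)) := by
  refine ⟨1 - t, t, by linarith, ht0, by ring, ?_⟩
  ext i
  fin_cases i
  · simp [h0]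
  · simp [h1]

lemma cover_len (L : List ((ℝ × ℝ) × (ℝ × ℝ))) : ∀ (A : Set E2), (∀ x ∈ A, ∃ s ∈ L, x ∈ seg s) →
    μH[1] A ≤ ENNReal.ofReal ((L.map segLen).sum) := by
  induction L with
  | nil =>
    intro A h
    have : A = ∅ := by
      rw [Set.eq_empty_iff_forall_notMem]
      intro x hx
      obtain ⟨s, hs, _⟩ := h x hx
      simp at hs
    rw [this]; simp
  | cons s L ih =>
    intro A h
    have hsub : A ⊆ seg s ∪ (A \ seg s) := by
      intro x hx
      by_cases hs : x ∈ seg s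
      · exact Or.inl hs
      · exact Or.inr ⟨hx, hs⟩
    have h2 : μH[1] (A \ seg s) ≤ ENNReal.ofReal ((L.map segLen).sum) := by
      apply ih
      rintro x ⟨hx, hxs⟩
      obtain ⟨s', hs', hx'⟩ := h x hx
      rcases List.mem_cons.1 hs' with rfl | hs'
      · exact absurd hx' hxs
      · exact ⟨s', hs', hx'⟩
    have hnn : ∀ s, 0 ≤ segLen s := fun s => Real.sqrt_nonneg _
    have hsum : 0 ≤ (L.map segLen).sum := by
      apply List.sum_nonneg
      intro y hy
      obtain ⟨s', _, rfl⟩ := List.mem_map.1 hy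
      exact hnn s'
    calc μH[1] A ≤ μH[1] (seg s ∪ (A \ seg s)) := measure_mono hsub
      _ ≤ μH[1] (seg s) + μH[1] (A \ seg s) := measure_union_le _ _
      _ ≤ ENNReal.ofReal (segLen s) + ENNReal.ofReal ((L.map segLen).sum) := by
          rw [measure_seg]; gcongr
      _ = ENNReal.ofReal (((s :: L).map segLen).sum) := by
          rw [List.map_cons, List.sum_cons, ENNReal.ofReal_add (hnn s) hsum]

/-- The sides of the small tile. -/
def sidesS : List ((ℝ × ℝ) × (ℝ × ℝ)) :=
  [((0, 8), (4, 6)), ((0, 8), (-4, 6)), ((4, 6), (7, 2)), ((-4, 6), (-7, 2)),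
    ((7, -4), (7, 2)), ((-7, -4), (-7, 2)), ((0, -6), (7, -4)), ((0, -6), (-7, -4))]

/-- The sides of the large tile. -/
def sidesB : List ((ℝ × ℝ) × (ℝ × ℝ)) :=
  [((84, -40), (84, 48)), ((-84, -40), (-84, 48)), ((7, 92), (84, 48)), ((-7, 92), (-84, 48)),
    ((0, -96), (77, -52)), ((0, -96), (-77, -52)), ((0, 90), (7, 92)), ((0, 90), (-7, 92)),
    ((80, -42), (84, -40)), ((77, -46), (80, -42)), ((77, -52), (77, -46)),
    ((-80, -42), (-84, -40)), ((-77, -46), (-80, -42)), ((-77, -52), (-77, -46))]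

lemma boundaryS (x : E2) (hx : gS x = 1) : ∃ s ∈ sidesS, x ∈ seg s := by
  obtain ⟨⟨⟨h1, h2⟩, h3, h4⟩, ⟨h5, h6⟩, h7, h8⟩ := (gS_le x).1 hx.le
  have hlt : ¬ gS x < 1 := by rw [hx]; exact lt_irrefl _
  by_contra hno
  apply hlt
  rw [gS_lt]
  refine ⟨⟨⟨?_, ?_⟩, ?_, ?_⟩, ⟨?_, ?_⟩, ?_, ?_⟩
  · by_contra hc
    push Not at hc
    exact hno ⟨((0, 8), (4, 6)), by simp [sidesS],
      mem_seg (x 0 / 4) (by linarith) (by linarith) (by linarith) (by linarith)⟩
  · by_contra hc
    push Not at hc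
    exact hno ⟨((0, 8), (-4, 6)), by simp [sidesS],
      mem_seg (-x 0 / 4) (by linarith) (by linarith) (by linarith) (by linarith)⟩
  · by_contra hc
    push Not at hc
    exact hno ⟨((4, 6), (7, 2)), by simp [sidesS],
      mem_seg ((x 0 - 4) / 3) (by linarith) (by linarith) (by linarith) (by linarith)⟩
  · by_contra hc
    push Not at hc
    exact hno ⟨((-4, 6), (-7, 2)), by simp [sidesS],
      mem_seg ((-x 0 - 4) / 3) (by linarith) (by linarith) (by linarith) (by linarith)⟩
  · by_contra hc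
    push Not at hc
    exact hno ⟨((7, -4), (7, 2)), by simp [sidesS],
      mem_seg ((x 1 + 4) / 6) (by linarith) (by linarith) (by linarith) (by linarith)⟩
  · by_contra hc
    push Not at hc
    exact hno ⟨((-7, -4), (-7, 2)), by simp [sidesS],
      mem_seg ((x 1 + 4) / 6) (by linarith) (by linarith) (by linarith) (by linarith)⟩
  · by_contra hc
    push Not at hc
    exact hno ⟨((0, -6), (7, -4)), by simp [sidesS],
      mem_seg (x 0 / 7) (by linarith) (by linarith) (by linarith) (by linarith)⟩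
  · by_contra hc
    push Not at hc
    exact hno ⟨((0, -6), (-7, -4)), by simp [sidesS],
      mem_seg (-x 0 / 7) (by linarith) (by linarith) (by linarith) (by linarith)⟩

lemma boundaryB (x : E2) (hx : gB x = 1) : ∃ s ∈ sidesB, x ∈ seg s := by
  obtain ⟨⟨⟨h1, h2⟩, ⟨h3, h4⟩, h5, h6⟩, h7, h8, h9⟩ := (gB_le x).1 hx.le
  have hlt : ¬ gB x < 1 := by rw [hx]; exact lt_irrefl _
  by_contra hno
  apply hlt
  rw [gB_lt]
  refine ⟨⟨⟨?_, ?_⟩, ⟨?_, ?_⟩, ?_, ?_⟩, ?_, ?_, ?_⟩
  · by_contra hc
    push Not at hc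
    refine hno ⟨((84, -40), (84, 48)), by simp [sidesB],
      mem_seg ((x 1 + 40) / 88) ?_ (by linarith) (by linarith) (by linarith)⟩
    rcases h8 with (h8 | h8) | h8 <;> linarith
  · by_contra hc
    push Not at hc
    refine hno ⟨((-84, -40), (-84, 48)), by simp [sidesB],
      mem_seg ((x 1 + 40) / 88) ?_ (by linarith) (by linarith) (by linarith)⟩
    rcases h9 with (h9 | h9) | h9 <;> linarith
  · by_contra hc
    push Not at hc
    refine hno ⟨((7, 92), (84, 48)), by simp [sidesB],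
      mem_seg ((x 0 - 7) / 77) ?_ (by linarith) (by linarith) (by linarith)⟩
    rcases h7 with h7 | h7 <;> linarith
  · by_contra hc
    push Not at hc
    refine hno ⟨((-7, 92), (-84, 48)), by simp [sidesB],
      mem_seg ((-x 0 - 7) / 77) ?_ (by linarith) (by linarith) (by linarith)⟩
    rcases h7 with h7 | h7 <;> linarith
  · by_contra hc
    push Not at hc
    refine hno ⟨((0, -96), (77, -52)), by simp [sidesB],
      mem_seg (x 0 / 77) (by linarith) ?_ (by linarith) (by linarith)⟩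
    rcases h8 with (h8 | h8) | h8 <;> linarith
  · by_contra hc
    push Not at hc
    refine hno ⟨((0, -96), (-77, -52)), by simp [sidesB],
      mem_seg (-x 0 / 77) (by linarith) ?_ (by linarith) (by linarith)⟩
    rcases h9 with (h9 | h9) | h9 <;> linarith
  · by_contra hc
    push Not at hc
    rcases h7 with h7 | h7
    · exact hno ⟨((0, 90), (7, 92)), by simp [sidesB],
        mem_seg (x 0 / 7) (by linarith) (by linarith) (by linarith) (by linarith)⟩
    · exact hno ⟨((0, 90), (-7, 92)), by simp [sidesB],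
        mem_seg (-x 0 / 7) (by linarith) (by linarith) (by linarith) (by linarith)⟩
  · by_contra hc
    push Not at hc
    obtain ⟨⟨c1, c2⟩, c3⟩ := hc
    rcases h8 with (h8 | h8) | h8
    · exact hno ⟨((80, -42), (84, -40)), by simp [sidesB],
        mem_seg ((x 0 - 80) / 4) (by linarith) (by linarith) (by linarith) (by linarith)⟩
    · exact hno ⟨((77, -46), (80, -42)), by simp [sidesB],
        mem_seg ((x 0 - 77) / 3) (by linarith) (by linarith) (by linarith) (by linarith)⟩
    · exact hno ⟨((77, -52), (77, -46)), by simp [sidesB],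
        mem_seg ((x 1 + 52) / 6) (by linarith) (by linarith) (by linarith) (by linarith)⟩
  · by_contra hc
    push Not at hc
    obtain ⟨⟨c1, c2⟩, c3⟩ := hc
    rcases h9 with (h9 | h9) | h9
    · exact hno ⟨((-80, -42), (-84, -40)), by simp [sidesB],
        mem_seg ((-x 0 - 80) / 4) (by linarith) (by linarith) (by linarith) (by linarith)⟩
    · exact hno ⟨((-77, -46), (-80, -42)), by simp [sidesB],
        mem_seg ((-x 0 - 77) / 3) (by linarith) (by linarith) (by linarith) (by linarith)⟩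
    · exact hno ⟨((-77, -52), (-77, -46)), by simp [sidesB],
        mem_seg ((x 1 + 52) / 6) (by linarith) (by linarith) (by linarith) (by linarith)⟩

lemma sqrt_bounds : Real.sqrt 20 ≤ 4.4722 ∧ Real.sqrt 53 ≤ 7.2802 ∧ Real.sqrt 65 ≤ 8.0623 := by
  refine ⟨?_, ?_, ?_⟩ <;> rw [Real.sqrt_le_left (by norm_num)] <;> norm_num

lemma perS : μH[1] {x : E2 | gS x = 1} ≤ ENNReal.ofReal 45.505 := by
  refine (cover_len sidesS _ (fun x hx => boundaryS x hx)).trans ?_
  apply ENNReal.ofReal_le_ofReal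
  obtain ⟨b1, b2, b3⟩ := sqrt_bounds
  have s25 : Real.sqrt 25 = 5 := by
    rw [show (25 : ℝ) = 5 ^ 2 by norm_num, Real.sqrt_sq (by norm_num)]
  have s36 : Real.sqrt 36 = 6 := by
    rw [show (36 : ℝ) = 6 ^ 2 by norm_num, Real.sqrt_sq (by norm_num)]
  simp only [sidesS, segLen, List.map_cons, List.map_nil, List.sum_cons, List.sum_nil]
  norm_num [s25, s36]
  linarith

lemma perB : μH[1] {x : E2 | gB x = 1} ≤ ENNReal.ofReal 576.25 := by
  refine (cover_len sidesB _ (fun x hx => boundaryB x hx)).trans ?_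
  apply ENNReal.ofReal_le_ofReal
  obtain ⟨b1, b2, b3⟩ := sqrt_bounds
  have s25 : Real.sqrt 25 = 5 := by
    rw [show (25 : ℝ) = 5 ^ 2 by norm_num, Real.sqrt_sq (by norm_num)]
  have s36 : Real.sqrt 36 = 6 := by
    rw [show (36 : ℝ) = 6 ^ 2 by norm_num, Real.sqrt_sq (by norm_num)]
  have s7744 : Real.sqrt 7744 = 88 := by
    rw [show (7744 : ℝ) = 88 ^ 2 by norm_num, Real.sqrt_sq (by norm_num)]
  have s7865 : Real.sqrt 7865 = 11 * Real.sqrt 65 := by
    rw [show (7865 : ℝ) = 11 ^ 2 * 65 by norm_num, Real.sqrt_mul (by norm_num),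
      Real.sqrt_sq (by norm_num)]
  simp only [sidesB, segLen, List.map_cons, List.map_nil, List.sum_cons, List.sum_nil]
  norm_num [s25, s36, s7744, s7865]
  linarith

/-! ### The tiling -/

/-- The centres of the large tiles. -/
noncomputable def cB (i j : ℤ) : E2 := !₂[168 * (i : ℝ) + 84 * j, 144 * (j : ℝ)]

/-- The centres of the small tiles. -/
noncomputable def cS (i j : ℤ) : E2 := !₂[168 * (i : ℝ) + 84 * j, 144 * (j : ℝ) + 96]

/-- The family of tiles. -/
noncomputable def tiles : (ℤ × ℤ) × Bool → Set E2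
  | ((i, j), true) => region gB (cB i j)
  | ((i, j), false) => region gS (cS i j)

lemma subB0 (z : E2) (i j : ℤ) : (z - cB i j) 0 = z 0 - (168 * (i : ℝ) + 84 * j) := by simp [cB]
lemma subB1 (z : E2) (i j : ℤ) : (z - cB i j) 1 = z 1 - 144 * (j : ℝ) := by simp [cB]
lemma subS0 (z : E2) (i j : ℤ) : (z - cS i j) 0 = z 0 - (168 * (i : ℝ) + 84 * j) := by simp [cS]
lemma subS1 (z : E2) (i j : ℤ) : (z - cS i j) 1 = z 1 - (144 * (j : ℝ) + 96) := by simp [cS]

/-- Every point lies in one of the hexagons. -/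
lemma hex_cover (z : E2) : ∃ i j : ℤ, ((z - cB i j) 0 ≤ 84 ∧ -(z - cB i j) 0 ≤ 84) ∧
    ((4 * (z - cB i j) 0 + 7 * (z - cB i j) 1 ≤ 672 ∧
      -4 * (z - cB i j) 0 + 7 * (z - cB i j) 1 ≤ 672) ∧
    (4 * (z - cB i j) 0 - 7 * (z - cB i j) 1 ≤ 672 ∧
      -4 * (z - cB i j) 0 - 7 * (z - cB i j) 1 ≤ 672)) := by
  simp only [subB0, subB1]
  set j := ⌊z 1 / 144⌋ with hj
  have j1 : (j : ℝ) ≤ z 1 / 144 := Int.floor_le _
  have j2 : z 1 / 144 < j + 1 := Int.lt_floor_add_one _
  set i := ⌊(z 0 - 84 * j) / 168⌋ with hi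
  have i1 : (i : ℝ) ≤ (z 0 - 84 * j) / 168 := Int.floor_le _
  have i2 : (z 0 - 84 * j) / 168 < i + 1 := Int.lt_floor_add_one _
  set a := z 0 - (168 * (i : ℝ) + 84 * j) with ha
  set b := z 1 - 144 * (j : ℝ) with hb
  have a1 : 0 ≤ a := by rw [ha]; linarith
  have a2 : a < 168 := by rw [ha]; linarith
  have b1 : 0 ≤ b := by rw [hb]; linarith
  have b2 : b < 144 := by rw [hb]; linarith
  rcases le_total a 84 with h | h
  · rcases le_total (4 * a + 7 * b) 672 with h' | h'
    · exact ⟨i, j, ⟨by linarith, by linarith⟩, ⟨by linarith, by linarith⟩, by linarith,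
        by linarith⟩
    · refine ⟨i, j + 1, ?_⟩
      have e0 : z 0 - (168 * (i : ℝ) + 84 * ((j + 1 : ℤ) : ℝ)) = a - 84 := by
        push_cast; rw [ha]; ring
      have e1 : z 1 - 144 * ((j + 1 : ℤ) : ℝ) = b - 144 := by
        push_cast; rw [hb]; ring
      rw [e0, e1]
      exact ⟨⟨by linarith, by linarith⟩, ⟨by linarith, by linarith⟩, by linarith, by linarith⟩
  · rcases le_total (-4 * a + 7 * b) 0 with h' | h'
    · refine ⟨i + 1, j, ?_⟩
      have e0 : z 0 - (168 * ((i + 1 : ℤ) : ℝ) + 84 * (j : ℝ)) = a - 168 := by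
        push_cast; rw [ha]; ring
      rw [e0]
      exact ⟨⟨by linarith, by linarith⟩, ⟨by linarith, by linarith⟩, by linarith, by linarith⟩
    · refine ⟨i, j + 1, ?_⟩
      have e0 : z 0 - (168 * (i : ℝ) + 84 * ((j + 1 : ℤ) : ℝ)) = a - 84 := by
        push_cast; rw [ha]; ring
      have e1 : z 1 - 144 * ((j + 1 : ℤ) : ℝ) = b - 144 := by
        push_cast; rw [hb]; ring
      rw [e0, e1]
      exact ⟨⟨by linarith, by linarith⟩, ⟨by linarith, by linarith⟩, by linarith, by linarith⟩

lemma tiles_cover : ⋃ i, tiles i = Set.univ := by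
  rw [Set.eq_univ_iff_forall]
  intro z
  rw [Set.mem_iUnion]
  obtain ⟨i, j, ⟨h1, h2⟩, ⟨h3, h4⟩, h5, h6⟩ := hex_cover z
  by_cases hB : gB (z - cB i j) ≤ 1
  · exact ⟨((i, j), true), hB⟩
  · rw [gB_le] at hB
    simp only [subB0, subB1] at *
    by_cases t1 : -2 * (z 0 - (168 * (i : ℝ) + 84 * j)) + 7 * (z 1 - 144 * (j : ℝ)) ≤ 630 ∨
        2 * (z 0 - (168 * (i : ℝ) + 84 * j)) + 7 * (z 1 - 144 * (j : ℝ)) ≤ 630
    · by_cases t2 : (((z 0 - (168 * (i : ℝ) + 84 * j)) - 2 * (z 1 - 144 * (j : ℝ)) ≤ 164 ∨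
          4 * (z 0 - (168 * (i : ℝ) + 84 * j)) - 3 * (z 1 - 144 * (j : ℝ)) ≤ 446) ∨
            (z 0 - (168 * (i : ℝ) + 84 * j)) ≤ 77)
      · by_cases t3 : ((-(z 0 - (168 * (i : ℝ) + 84 * j)) - 2 * (z 1 - 144 * (j : ℝ)) ≤ 164 ∨
            -4 * (z 0 - (168 * (i : ℝ) + 84 * j)) - 3 * (z 1 - 144 * (j : ℝ)) ≤ 446) ∨
              -(z 0 - (168 * (i : ℝ) + 84 * j)) ≤ 77)
        · exact absurd ⟨⟨⟨h1, h2⟩, ⟨h3, h4⟩, h5, h6⟩, t1, t2, t3⟩ hB
        · refine ⟨((i, j - 1), false), ?_⟩
          change gS (z - cS i (j - 1)) ≤ 1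
          rw [gS_le]
          simp only [subS0, subS1]
          push Not at t3
          obtain ⟨⟨c1, c2⟩, c3⟩ := t3
          push_cast
          refine ⟨⟨⟨by linarith, by linarith⟩, by linarith, by linarith⟩,
            ⟨by linarith, by linarith⟩, by linarith, by linarith⟩
      · refine ⟨((i + 1, j - 1), false), ?_⟩
        change gS (z - cS (i + 1) (j - 1)) ≤ 1
        rw [gS_le]
        simp only [subS0, subS1]
        push Not at t2
        obtain ⟨⟨c1, c2⟩, c3⟩ := t2
        push_cast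
        refine ⟨⟨⟨by linarith, by linarith⟩, by linarith, by linarith⟩,
          ⟨by linarith, by linarith⟩, by linarith, by linarith⟩
    · refine ⟨((i, j), false), ?_⟩
      change gS (z - cS i j) ≤ 1
      rw [gS_le]
      simp only [subS0, subS1]
      push Not at t1
      obtain ⟨c1, c2⟩ := t1
      refine ⟨⟨⟨by linarith, by linarith⟩, by linarith, by linarith⟩,
        ⟨by linarith, by linarith⟩, by linarith, by linarith⟩

lemma disjBB (z : E2) (i j i' j' : ℤ) (h : gB (z - cB i j) < 1) (h' : gB (z - cB i' j') < 1) :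
    i = i' ∧ j = j' := by
  rw [gB_lt] at h h'
  simp only [subB0, subB1] at h h'
  obtain ⟨⟨⟨a1, a2⟩, ⟨a3, a4⟩, a5, a6⟩, -⟩ := h
  obtain ⟨⟨⟨b1, b2⟩, ⟨b3, b4⟩, b5, b6⟩, -⟩ := h'
  have k1 : ((2 * (i' - i) + (j' - j) : ℤ) : ℝ) < 2 := by push_cast; linarith
  have k2 : (-2 : ℝ) < ((2 * (i' - i) + (j' - j) : ℤ) : ℝ) := by push_cast; linarith
  have k3 : (((i' - i) + 2 * (j' - j) : ℤ) : ℝ) < 2 := by push_cast; linarith
  have k4 : (-2 : ℝ) < (((i' - i) + 2 * (j' - j) : ℤ) : ℝ) := by push_cast; linarith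
  have k5 : (((i' - i) - (j' - j) : ℤ) : ℝ) < 2 := by push_cast; linarith
  have k6 : (-2 : ℝ) < (((i' - i) - (j' - j) : ℤ) : ℝ) := by push_cast; linarith
  have k1' : (2 * (i' - i) + (j' - j) : ℤ) < 2 := by exact_mod_cast k1
  have k2' : -2 < (2 * (i' - i) + (j' - j) : ℤ) := by exact_mod_cast k2
  have k3' : ((i' - i) + 2 * (j' - j) : ℤ) < 2 := by exact_mod_cast k3
  have k4' : -2 < ((i' - i) + 2 * (j' - j) : ℤ) := by exact_mod_cast k4
  have k5' : ((i' - i) - (j' - j) : ℤ) < 2 := by exact_mod_cast k5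
  have k6' : -2 < ((i' - i) - (j' - j) : ℤ) := by exact_mod_cast k6
  omega

lemma disjSS (z : E2) (i j i' j' : ℤ) (h : gS (z - cS i j) < 1) (h' : gS (z - cS i' j') < 1) :
    i = i' ∧ j = j' := by
  rw [gS_lt] at h h'
  simp only [subS0, subS1] at h h'
  obtain ⟨⟨⟨a1, a2⟩, a3, a4⟩, ⟨a5, a6⟩, a7, a8⟩ := h
  obtain ⟨⟨⟨b1, b2⟩, b3, b4⟩, ⟨b5, b6⟩, b7, b8⟩ := h'
  have k1 : ((j' - j : ℤ) : ℝ) < 1 := by push_cast; linarith
  have k2 : (-1 : ℝ) < ((j' - j : ℤ) : ℝ) := by push_cast; linarith
  have k1' : j' - j < 1 := by exact_mod_cast k1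
  have k2' : -1 < j' - j := by exact_mod_cast k2
  have hj : j = j' := by omega
  subst hj
  have k3 : ((i' - i : ℤ) : ℝ) < 1 := by push_cast; linarith
  have k4 : (-1 : ℝ) < ((i' - i : ℤ) : ℝ) := by push_cast; linarith
  have k3' : i' - i < 1 := by exact_mod_cast k3
  have k4' : -1 < i' - i := by exact_mod_cast k4
  omega

lemma disjBS (z : E2) (i j i' j' : ℤ) (h : gB (z - cB i j) < 1) (h' : gS (z - cS i' j') < 1) :
    False := by
  rw [gB_lt] at h
  rw [gS_lt] at h'
  simp only [subB0, subB1] at h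
  simp only [subS0, subS1] at h'
  obtain ⟨⟨⟨a1, a2⟩, ⟨a3, a4⟩, a5, a6⟩, a7, a8, a9⟩ := h
  obtain ⟨⟨⟨b1, b2⟩, b3, b4⟩, ⟨b5, b6⟩, b7, b8⟩ := h'
  have k1 : ((j' - j : ℤ) : ℝ) < 1 := by push_cast; linarith
  have k2 : (-2 : ℝ) < ((j' - j : ℤ) : ℝ) := by push_cast; linarith
  have k1' : j' - j < 1 := by exact_mod_cast k1
  have k2' : -2 < j' - j := by exact_mod_cast k2
  obtain hj | hj : j' = j ∨ j' = j - 1 := by omega
  · subst hj
    have k3 : ((i' - i : ℤ) : ℝ) < 1 := by push_cast; linarith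
    have k4 : (-1 : ℝ) < ((i' - i : ℤ) : ℝ) := by push_cast; linarith
    have k3' : i' - i < 1 := by exact_mod_cast k3
    have k4' : -1 < i' - i := by exact_mod_cast k4
    have hi : i = i' := by omega
    subst hi
    rcases a7 with a7 | a7 <;> linarith
  · subst hj
    push_cast at b1 b2 b3 b4 b5 b6 b7 b8
    have k3 : ((i' - i : ℤ) : ℝ) < 2 := by push_cast; linarith
    have k4 : (-1 : ℝ) < ((i' - i : ℤ) : ℝ) := by push_cast; linarith
    have k3' : i' - i < 2 := by exact_mod_cast k3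
    have k4' : -1 < i' - i := by exact_mod_cast k4
    obtain hi | hi : i' = i ∨ i' = i + 1 := by omega
    · subst hi
      rcases a9 with (a9 | a9) | a9 <;> linarith
    · subst hi
      push_cast at b1 b2 b3 b4 b5 b6 b7 b8
      rcases a8 with (a8 | a8) | a8 <;> linarith

lemma tiles_disjoint (s t : (ℤ × ℤ) × Bool) (hst : s ≠ t) :
    Disjoint (interior (tiles s)) (interior (tiles t)) := by
  rw [Set.disjoint_left]
  intro z hs ht
  obtain ⟨⟨i, j⟩, b⟩ := s
  obtain ⟨⟨i', j'⟩, b'⟩ := t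
  apply hst
  cases b <;> cases b'
  · change z ∈ interior (region gS (cS i j)) at hs
    change z ∈ interior (region gS (cS i' j')) at ht
    rw [interior_region gS gaugeS] at hs ht
    obtain ⟨rfl, rfl⟩ := disjSS z i j i' j' hs ht
    rfl
  · change z ∈ interior (region gS (cS i j)) at hs
    change z ∈ interior (region gB (cB i' j')) at ht
    rw [interior_region gS gaugeS] at hs
    rw [interior_region gB gaugeB] at ht
    exact (disjBS z i' j' i j ht hs).elim
  · change z ∈ interior (region gB (cB i j)) at hs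
    change z ∈ interior (region gS (cS i' j')) at ht
    rw [interior_region gB gaugeB] at hs
    rw [interior_region gS gaugeS] at ht
    exact (disjBS z i j i' j' hs ht).elim
  · change z ∈ interior (region gB (cB i j)) at hs
    change z ∈ interior (region gB (cB i' j')) at ht
    rw [interior_region gB gaugeB] at hs ht
    obtain ⟨rfl, rfl⟩ := disjBB z i j i' j' hs ht
    rfl

/-! ### Ratios, diameters and scaling -/

lemma volume_region (g : E2 → ℝ) (c : E2) : volume (region g c) = volume {x | g x ≤ 1} := by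
  have : region g c = (fun x => x + (-c)) ⁻¹' {x | g x ≤ 1} := by
    ext x; simp [region, sub_eq_add_neg]
  rw [this, measure_preimage_add_right]

lemma length_region (g : E2 → ℝ) (hg : GaugeLike g) (c : E2) :
    μH[1] (frontier (region g c)) = μH[1] {x | g x = 1} := by
  rw [frontier_region g hg]
  exact (IsometryEquiv.subRight c).hausdorffMeasure_preimage 1 {x | g x = 1}

lemma isoRatio_le (A : Set E2) (L V : ℝ) (hV : 0 < V) (hL : 0 ≤ L)
    (h1 : μH[1] (frontier A) ≤ ENNReal.ofReal L) (h2 : ENNReal.ofReal V ≤ volume A)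
    (h3 : L ^ 2 ≤ 13.82 * V) : isoRatio A ≤ ENNReal.ofReal 13.82 := by
  unfold isoRatio
  calc (μH[1] (frontier A)) ^ 2 / volume A ≤ (ENNReal.ofReal L) ^ 2 / ENNReal.ofReal V := by
        gcongr
    _ = ENNReal.ofReal (L ^ 2 / V) := by
        rw [← ENNReal.ofReal_pow hL, ENNReal.ofReal_div_of_pos hV]
    _ ≤ ENNReal.ofReal 13.82 := by
        apply ENNReal.ofReal_le_ofReal
        rw [div_le_iff₀ hV]
        exact h3

lemma isoRatio_tiles (i : (ℤ × ℤ) × Bool) : isoRatio (tiles i) ≤ ENNReal.ofReal 13.82 := by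
  obtain ⟨⟨i, j⟩, b⟩ := i
  cases b
  · change isoRatio (region gS (cS i j)) ≤ _
    apply isoRatio_le _ 45.505 150 (by norm_num) (by norm_num)
    · rw [length_region gS gaugeS]; exact perS
    · rw [volume_region]; exact areaS
    · norm_num
  · change isoRatio (region gB (cB i j)) ≤ _
    apply isoRatio_le _ 576.25 24042 (by norm_num) (by norm_num)
    · rw [length_region gB gaugeB]; exact perB
    · rw [volume_region]; exact areaB
    · norm_num

lemma bounded_region (g : E2 → ℝ) (hg : GaugeLike g) (c : E2) :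
    Bornology.IsBounded (region g c) := by
  obtain ⟨m, hm, hl⟩ := hg.lower
  apply (Metric.isBounded_closedBall (x := c) (r := 1 / m)).subset
  intro x hx
  rw [mem_closedBall_iff_norm, le_div_iff₀ hm]
  have h1 := hl (x - c)
  have h2 : g (x - c) ≤ 1 := hx
  linarith

lemma diam_tiles (i : (ℤ × ℤ) × Bool) : 14 ≤ Metric.diam (tiles i) := by
  obtain ⟨⟨i, j⟩, b⟩ := i
  have key : ∀ (g : E2 → ℝ), GaugeLike g → ∀ c : E2, g !₂[0, 8] ≤ 1 → g !₂[0, -6] ≤ 1 →
      14 ≤ Metric.diam (region g c) := by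
    intro g hg c h1 h2
    have d1 : c + !₂[0, 8] ∈ region g c := by simpa [region] using h1
    have d2 : c + !₂[0, -6] ∈ region g c := by simpa [region] using h2
    have := Metric.dist_le_diam_of_mem (bounded_region g hg c) d1 d2
    rw [dist_add_left, EuclideanSpace.dist_eq, Fin.sum_univ_two] at this
    have e : Real.sqrt (dist ((!₂[0, 8] : E2) 0) ((!₂[0, -6] : E2) 0) ^ 2 +
        dist ((!₂[0, 8] : E2) 1) ((!₂[0, -6] : E2) 1) ^ 2) = 14 := by
      rw [show (14 : ℝ) = Real.sqrt (14 ^ 2) by rw [Real.sqrt_sq (by norm_num)]]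
      congr 1
      simp [Real.dist_eq]
      norm_num
    linarith
  cases b
  · apply key gS gaugeS
    · rw [gS_le]; simp; norm_num
    · rw [gS_le]; simp; norm_num
  · apply key gB gaugeB
    · rw [gB_le]; simp; norm_num
    · rw [gB_le]; simp; norm_num

open Pointwise in
lemma isoRatio_smul (t : ℝ) (ht : 0 < t) (A : Set E2) : isoRatio (t • A) = isoRatio A := by
  unfold isoRatio
  have h1 : frontier (t • A) = t • frontier A := by
    rw [← Set.image_smul, ← Set.image_smul]
    exact ((Homeomorph.smulOfNeZero t ht.ne').image_frontier A).symm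
  have h2 : (‖t‖₊ : ENNReal) = ENNReal.ofReal t := Real.enorm_eq_ofReal ht.le
  rw [h1, hausdorffMeasure_smul₀ zero_le_one ht.ne', Measure.addHaar_smul]
  have h3 : ENNReal.ofReal |t ^ Module.finrank ℝ E2| = ENNReal.ofReal t ^ 2 := by
    rw [abs_of_pos (pow_pos ht _), ENNReal.ofReal_pow ht.le]
    simp
  rw [h3, NNReal.rpow_one, ENNReal.smul_def, smul_eq_mul, h2, mul_pow]
  have h4 : ENNReal.ofReal t ^ 2 ≠ 0 := by
    apply pow_ne_zero
    simpa using ht
  have h5 : ENNReal.ofReal t ^ 2 ≠ ⊤ := ENNReal.pow_ne_top ENNReal.ofReal_ne_top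
  exact ENNReal.mul_div_mul_left _ _ h4 h5

open Pointwise in
/-- **Tilings with all isoperimetric ratios below that of the regular hexagon.** For every
`D₀ > 0` there is a tiling of the plane by closed topological disks of diameter at least `D₀` such
that the supremum of the isoperimetric ratios of the tiles is smaller than `8√3`. -/
theorem result : ∀ D₀ : ℝ, 0 < D₀ → ∃ (ι : Type) (A : ι → Set E2), IsTiling A ∧
    (∀ i, D₀ ≤ Metric.diam (A i)) ∧ ⨆ i, isoRatio (A i) < ENNReal.ofReal (8 * Real.sqrt 3) := by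
  intro D₀ hD
  have ht : 0 < D₀ / 14 := by positivity
  refine ⟨(ℤ × ℤ) × Bool, fun i => (D₀ / 14) • tiles i, ⟨inferInstance, ?_, ?_, ?_⟩, ?_, ?_⟩
  · intro i
    have h : IsDisk (tiles i) := by
      obtain ⟨⟨i, j⟩, b⟩ := i
      cases b
      · exact region_isDisk gS gaugeS _
      · exact region_isDisk gB gaugeB _
    obtain ⟨e⟩ := h
    exact ⟨((Homeomorph.smulOfNeZero (D₀ / 14) ht.ne').image (tiles i)).symm.trans e⟩
  · rw [← Set.smul_set_iUnion, tiles_cover, Set.smul_set_univ₀ ht.ne']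
  · intro i j hij
    rw [interior_smul₀ ht.ne', interior_smul₀ ht.ne', ← Set.image_smul, ← Set.image_smul,
      Set.disjoint_image_iff (MulAction.injective₀ ht.ne')]
    exact tiles_disjoint i j hij
  · intro i
    rw [diam_smul₀, Real.norm_of_nonneg ht.le]
    have := diam_tiles i
    calc D₀ = D₀ / 14 * 14 := by field_simp
      _ ≤ D₀ / 14 * Metric.diam (tiles i) := by gcongr
  · have h1 : ⨆ i, isoRatio ((D₀ / 14) • tiles i) ≤ ENNReal.ofReal 13.82 := by
      apply iSup_le
      intro i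
      rw [isoRatio_smul _ ht]
      exact isoRatio_tiles i
    refine lt_of_le_of_lt h1 ?_
    rw [ENNReal.ofReal_lt_ofReal_iff (by positivity)]
    have : (1.73 : ℝ) < Real.sqrt 3 := by
      rw [Real.lt_sqrt (by norm_num)]; norm_num
    linarith

end Pool.Agent.Results.MP_9020c0_gt.BelowHexagon
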